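import Mathlib

namespace Pool.Agent.Results.MP_41928e_lc.NoMarkov

open Finset

/-- A layered graph with layers `0, …, n` (`n ≥ 1`, so `L = n + 1 > 1` layers), all non-empty,
edges only between consecutive layers, and first layer `{s}`. -/
structure Layered (V : Type) where
  n : ℕ
  hn : 1 ≤ n
  layer : V → Fin (n + 1)
  layer_surj : Function.Surjective layer
  E : V → V → Prop
  edge_layer : ∀ u v, E u v → (layer v : ℕ) = layer u + 1
  s : V
  source : ∀ v, layer v = 0 ↔ v = s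

variable {V : Type}

/-- Directed paths from `s` to the last layer, listed vertex by vertex. -/
def Path (G : Layered V) : Type :=
  {p : Fin (G.n + 1) → V // p 0 = G.s ∧ ∀ i : Fin G.n, G.E (p i.castSucc) (p i.succ)}

noncomputable instance [Fintype V] (G : Layered V) : Fintype (Path G) := by
  classical
  unfold Path
  infer_instance

/-- The two paths traverse a common edge. -/
def Share {G : Layered V} (p p' : Path G) : Prop :=
  ∃ i j : Fin G.n, p.1 i.castSucc = p'.1 j.castSucc ∧ p.1 i.succ = p'.1 j.succ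

open Classical in
/-- Attacker's payoff for pure strategies. -/
noncomputable def u {G : Layered V} (pd pa : Path G) : ℝ := if Share pd pa then 0 else 1

def Mixed [Fintype V] {G : Layered V} (x : Path G → ℝ) : Prop :=
  (∀ p, 0 ≤ x p) ∧ ∑ p, x p = 1

/-- Expected attacker payoff. -/
noncomputable def U [Fintype V] {G : Layered V} (xd xa : Path G → ℝ) : ℝ :=
  ∑ pd, ∑ pa, xd pd * xa pa * u pd pa

def NE [Fintype V] {G : Layered V} (xd xa : Path G → ℝ) : Prop :=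
  Mixed xd ∧ Mixed xa ∧ (∀ y, Mixed y → U xd y ≤ U xd xa) ∧ (∀ y, Mixed y → U xd xa ≤ U y xa)

/-- Product form over edges (implied by being Markovian; no normalisation is required). -/
def ProductForm {G : Layered V} (x : Path G → ℝ) : Prop :=
  ∃ q : V → V → ℝ, ∀ p, x p = ∏ i : Fin G.n, q (p.1 i.castSucc) (p.1 i.succ)

def edges : List (Fin 11 × Fin 11) :=
  [(0, 1), (0, 2), (1, 4), (1, 5), (2, 3), (2, 4), (2, 5), (3, 6), (4, 7), (5, 7), (6, 8), (7, 8),
    (7, 9), (8, 10), (9, 10)]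

def G0 : Layered (Fin 11) where
  n := 5
  hn := by norm_num
  layer := ![0, 1, 1, 2, 2, 2, 3, 3, 4, 4, 5]
  layer_surj := by decide
  E := fun a b => (a, b) ∈ edges
  edge_layer := by decide
  s := 0
  source := by decide

def P0 : Fin 9 → Fin 6 → Fin 11 :=
  ![![0, 1, 4, 7, 8, 10],
    ![0, 1, 4, 7, 9, 10],
    ![0, 1, 5, 7, 8, 10],
    ![0, 1, 5, 7, 9, 10],
    ![0, 2, 3, 6, 8, 10],
    ![0, 2, 4, 7, 8, 10],
    ![0, 2, 4, 7, 9, 10],
    ![0, 2, 5, 7, 8, 10],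
    ![0, 2, 5, 7, 9, 10]]

def P (i : Fin 9) : Path G0 :=
  ⟨P0 i, (by decide : ∀ i, P0 i 0 = 0 ∧ ∀ j : Fin 5, (P0 i j.castSucc, P0 i j.succ) ∈ edges) i⟩

set_option synthInstance.maxSize 2000 in
lemma enum : ∀ a, (0, a) ∈ edges → ∀ b, (a, b) ∈ edges → ∀ c, (b, c) ∈ edges →
    ∀ d, (c, d) ∈ edges → ∀ e, (d, e) ∈ edges → ∃ i, P0 i = ![0, a, b, c, d, e] := by
  decide +kernel

lemma P_bij : Function.Bijective P := by
  constructor
  · intro i j h
    exact (by decide : ∀ i j, P0 i = P0 j → i = j) i j (congrArg Subtype.val h)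
  · rintro ⟨p, h0, h⟩
    change Fin 6 → Fin 11 at p
    have h0' : p 0 = 0 := h0
    have h1 : (p 0, p 1) ∈ edges := h (0 : Fin 5)
    have h2 : (p 1, p 2) ∈ edges := h (1 : Fin 5)
    have h3 : (p 2, p 3) ∈ edges := h (2 : Fin 5)
    have h4 : (p 3, p 4) ∈ edges := h (3 : Fin 5)
    have h5 : (p 4, p 5) ∈ edges := h (4 : Fin 5)
    rw [h0'] at h1
    obtain ⟨i, hi⟩ := enum _ h1 _ h2 _ h3 _ h4 _ h5
    refine ⟨i, Subtype.ext ?_⟩
    show P0 i = p
    rw [hi]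
    funext k
    fin_cases k <;> simp [h0']

def M : Fin 9 → Fin 9 → ℕ :=
  ![![0, 0, 0, 0, 0, 0, 0, 0, 1],
    ![0, 0, 0, 0, 1, 0, 0, 1, 0],
    ![0, 0, 0, 0, 0, 0, 1, 0, 0],
    ![0, 0, 0, 0, 1, 1, 0, 0, 0],
    ![0, 1, 0, 1, 0, 0, 0, 0, 0],
    ![0, 0, 0, 1, 0, 0, 0, 0, 0],
    ![0, 0, 1, 0, 0, 0, 0, 0, 0],
    ![0, 1, 0, 0, 0, 0, 0, 0, 0],
    ![1, 0, 0, 0, 0, 0, 0, 0, 0]]

lemma u_eq (i j : Fin 9) : u (P i) (P j) = M i j := by
  have h : ∀ i j : Fin 9, (M i j = 0 ∧ ∃ a b : Fin 5, P0 i a.castSucc = P0 j b.castSucc ∧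
      P0 i a.succ = P0 j b.succ) ∨ (M i j = 1 ∧ ¬ ∃ a b : Fin 5, P0 i a.castSucc =
      P0 j b.castSucc ∧ P0 i a.succ = P0 j b.succ) := by decide +kernel
  unfold u
  rcases h i j with ⟨h1, h2⟩ | ⟨h1, h2⟩
  · rw [if_pos (show Share (P i) (P j) from h2), h1]; simp
  · rw [if_neg (show ¬ Share (P i) (P j) from h2), h1]; simp

noncomputable def e : Fin 9 ≃ Path G0 := Equiv.ofBijective P P_bij

lemma sum_eq (f : Path G0 → ℝ) : ∑ p, f p = ∑ i, f (P i) := (e.sum_comp f).symm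

lemma U_eq (x y : Path G0 → ℝ) : U x y = ∑ i, ∑ j, x (P i) * y (P j) * M i j := by
  unfold U
  rw [sum_eq]
  refine sum_congr rfl fun i _ => ?_
  rw [sum_eq]
  exact sum_congr rfl fun j _ => by rw [u_eq]

noncomputable def lift (v : Fin 9 → ℝ) : Path G0 → ℝ := fun p => v (e.symm p)

lemma lift_P (v : Fin 9 → ℝ) (i : Fin 9) : lift v (P i) = v i := by
  have : P i = e i := rfl
  simp [lift, this]

lemma lift_mixed (v : Fin 9 → ℝ) (h : ∀ i, 0 ≤ v i) (h1 : ∑ i, v i = 1) : Mixed (lift v) :=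
  ⟨fun _ => h _, by rw [sum_eq]; simpa [lift_P] using h1⟩

theorem result : ∃ (V : Type) (_ : Fintype V) (G : Layered V), Nonempty (Path G) ∧
    ∀ xd xa : Path G → ℝ, NE xd xa → ¬ ProductForm xa := by
  refine ⟨Fin 11, inferInstance, G0, ⟨P 0⟩, ?_⟩
  rintro xd xa ⟨⟨hd0, hd1⟩, ⟨ha0, ha1⟩, h1, h2⟩ ⟨q, hq⟩
  have hv : 1 / 7 ≤ U xd xa := by
    refine le_trans ?_ (h1 _ (lift_mixed ![1 / 7, 1 / 7, 1 / 7, 1 / 7, 1 / 7, 0, 1 / 7, 0, 1 / 7]
      (fun i => by fin_cases i <;> simp) (by simp [Fin.sum_univ_succ]; norm_num)))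
    rw [U_eq]
    rw [sum_eq] at hd1
    simp only [lift_P]
    simp [Fin.sum_univ_succ, M] at hd1 ⊢
    linarith [hd0 (P 0), hd0 (P 1), hd0 (P 2), hd0 (P 3), hd0 (P 4), hd0 (P 5), hd0 (P 6),
      hd0 (P 7), hd0 (P 8)]
  have hrow : ∀ k : Fin 9, 1 / 7 ≤ ∑ j, xa (P j) * M k j := by
    intro k
    have := hv.trans (h2 _ (lift_mixed (Pi.single k 1) (fun i => by
      rw [Pi.single_apply]; split_ifs <;> norm_num) (by simp)))
    rw [U_eq] at this
    simp only [lift_P] at this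
    rw [sum_eq_single k (fun i _ hi => by simp [hi]) (by simp)] at this
    simpa using this
  have r0 := hrow 0
  have r1 := hrow 1
  have r2 := hrow 2
  have r3 := hrow 3
  have r4 := hrow 4
  have r5 := hrow 5
  have r6 := hrow 6
  have r7 := hrow 7
  have r8 := hrow 8
  rw [sum_eq] at ha1
  simp [Fin.sum_univ_succ, M] at r0 r1 r2 r3 r4 r5 r6 r7 r8 ha1
  have n0 := ha0 (P 0)
  have n1 := ha0 (P 1)
  have n2 := ha0 (P 2)
  have n3 := ha0 (P 3)
  have n4 := ha0 (P 4)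
  have n5 := ha0 (P 5)
  have n6 := ha0 (P 6)
  have n7 := ha0 (P 7)
  have n8 := ha0 (P 8)
  have a0 : 0 < xa (P 0) := by linarith
  have a6 : 0 < xa (P 6) := by linarith
  have a5 : xa (P 5) = 0 := by linarith
  have key : xa (P 0) * xa (P 6) = xa (P 1) * xa (P 5) := by
    have hh : ∀ i, xa (P i) = ∏ j : Fin 5, q (P0 i j.castSucc) (P0 i j.succ) := fun i => hq (P i)
    rw [hh, hh, hh, hh]
    simp [Fin.prod_univ_succ, P0]
    ring
  rw [a5, mul_zero] at key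
  exact (mul_pos a0 a6).ne' key

end Pool.Agent.Results.MP_41928e_lc.NoMarkov
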